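import Pool.Agent.helper58.BR.SpecN

/-!
# Project BR (MP_baa4d7_al), BOUND-R, block N, row ORS: orbits
-/

set_option autoImplicit false

namespace Pool.Agent.BR

open Pool.Agent.helper58.DC Pool.Agent.DI Pool.Agent.GR Pool.Agent.OB Pool.Agent.DR Pool.Agent.FI Pool.Agent.FI3 Pool.Agent.FI4 Pool.Agent.LE

/-- sums over the cycles of an injective self-map of a finite type -/
theorem ORS_orb {Λ : Type} [Finite Λ] (σ : Λ → Λ) (hσ : Function.Injective σ) (N : ℕ) (f : Λ → ℤ)
    (hf : ∀ l, f (σ l) = f l) (c : ℕ) : ∀ Y : Finset Λ, Y.card = c → (∀ l ∈ Y, σ l ∈ Y) →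
    (∀ l ∈ Y, ∀ n : ℕ, σ^[n] l = l → N ∣ n) → (N : ℤ) ∣ ∑ l ∈ Y, f l := by
  classical
  induction c using Nat.strong_induction_on with
  | _ c ih =>
    intro Y hc hY hN
    rcases Y.eq_empty_or_nonempty with rfl | ⟨l₀, hl₀⟩
    · simp
    · have hper : l₀ ∈ Function.periodicPts σ := Function.Injective.mem_periodicPts hσ l₀
      have hk : 0 < Function.minimalPeriod σ l₀ := Function.minimalPeriod_pos_of_mem_periodicPts hper
      have hkk : σ^[Function.minimalPeriod σ l₀] l₀ = l₀ := Function.iterate_minimalPeriod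
      have hmem : ∀ n : ℕ, σ^[n] l₀ ∈ Y := by
        intro n
        induction n with
        | zero => exact hl₀
        | succ n ihn =>
          rw [Function.iterate_succ_apply']
          exact hY _ ihn
      have hfn : ∀ n : ℕ, f (σ^[n] l₀) = f l₀ := by
        intro n
        induction n with
        | zero => rfl
        | succ n ihn =>
          rw [Function.iterate_succ_apply', hf]
          exact ihn
      let O : Finset Λ := (Finset.range (Function.minimalPeriod σ l₀)).image (fun i => σ^[i] l₀)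
      have hOY : O ⊆ Y := by
        intro l hl
        obtain ⟨i, -, rfl⟩ := Finset.mem_image.mp hl
        exact hmem i
      have hOs : ∑ l ∈ O, f l = (Function.minimalPeriod σ l₀ : ℤ) * f l₀ := by
        have hinj : Set.InjOn (fun i => σ^[i] l₀) (Finset.range (Function.minimalPeriod σ l₀) : Set ℕ) := by
          intro i hi j hj hij
          have hi' : i < Function.minimalPeriod σ l₀ := by simpa using hi
          have hj' : j < Function.minimalPeriod σ l₀ := by simpa using hj
          exact (Function.iterate_eq_iterate_iff_of_lt_minimalPeriod hi' hj').mp hij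
        rw [Finset.sum_image hinj, Finset.sum_congr rfl (fun i _ => hfn i), Finset.sum_const, Finset.card_range, nsmul_eq_mul]
      have hl₀O : l₀ ∈ O := Finset.mem_image.mpr ⟨0, Finset.mem_range.mpr hk, rfl⟩
      have hlt : (Y \ O).card < c := by
        rw [← hc]
        refine Finset.card_lt_card ⟨Finset.sdiff_subset, fun hss => ?_⟩
        exact (Finset.mem_sdiff.mp (hss hl₀)).2 hl₀O
      have h1 := ih _ hlt (Y \ O) rfl (by
        intro l hl
        obtain ⟨hlY, hlO⟩ := Finset.mem_sdiff.mp hl
        refine Finset.mem_sdiff.mpr ⟨hY l hlY, fun hs => hlO ?_⟩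
        obtain ⟨i, hi, hil⟩ := Finset.mem_image.mp hs
        have hi' : i < Function.minimalPeriod σ l₀ := Finset.mem_range.mp hi
        rcases Nat.eq_zero_or_pos i with rfl | hi0
        · obtain ⟨k, hkeq⟩ : ∃ k, Function.minimalPeriod σ l₀ = k + 1 := ⟨_, (Nat.succ_pred_eq_of_pos hk).symm⟩
          refine Finset.mem_image.mpr ⟨k, Finset.mem_range.mpr (by omega), hσ ?_⟩
          rw [← hil]
          show σ (σ^[k] l₀) = l₀
          rw [← Function.iterate_succ_apply' σ k l₀]
          rw [hkeq] at hkk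
          exact hkk
        · obtain ⟨j, rfl⟩ : ∃ j, i = j + 1 := ⟨_, (Nat.succ_pred_eq_of_pos hi0).symm⟩
          refine Finset.mem_image.mpr ⟨j, Finset.mem_range.mpr (by omega), hσ ?_⟩
          rw [← hil]
          exact (Function.iterate_succ_apply' σ j l₀).symm) (fun l hl => hN l (Finset.mem_sdiff.mp hl).1)
      rw [← Finset.sum_sdiff hOY, hOs]
      exact dvd_add h1 (Dvd.dvd.mul_right (Int.natCast_dvd_natCast.mpr (hN l₀ hl₀ _ hkk)) _)

/-- the arithmetic of `1 + p` -/
theorem ORS_lte {p : ℕ} (hp : p.Prime) (hp2 : p ≠ 2) {h n : ℕ} (hd : p ^ (h + 2) ∣ (1 + p) ^ n - 1) : p ^ (h + 1) ∣ n := by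
  haveI : Fact p.Prime := ⟨hp⟩
  rcases Nat.eq_zero_or_pos n with rfl | hn
  · exact dvd_zero _
  · have hne : (1 + p) ^ n - 1 ≠ 0 := by
      have : 1 < (1 + p) ^ n := Nat.one_lt_pow hn.ne' (by have := hp.pos; omega)
      omega
    have h1 : h + 2 ≤ padicValNat p ((1 + p) ^ n - 1) := (padicValNat_dvd_iff_le hne).mp hd
    have hodd : Odd p := hp.odd_of_ne_two hp2
    have h2 := padicValNat.pow_sub_pow (p := p) hodd (x := 1 + p) (y := 1) (by have := hp.pos; omega) (by simp)
      (by
        intro hdv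
        have h3 : p ∣ 1 := (Nat.dvd_add_left (dvd_refl p)).mp hdv
        exact hp.one_lt.ne' (Nat.dvd_one.mp h3)) (n := n) hn.ne'
    rw [one_pow, Nat.add_sub_cancel_left, padicValNat_self] at h2
    exact (padicValNat_dvd_iff_le hn.ne').mpr (by omega)

theorem ORS : ORS_stmt := by
  classical
  intro p hp hp2 h Λ _ _ hP f hf
  haveI : Fact p.Prime := ⟨hp⟩
  rw [finsum_mem_eq_finite_toFinset_sum f (Set.toFinite {l : Λ | l ^ p ^ (h + 1) ≠ 1})]
  have hcop : p.Coprime (1 + p) := by simp
  have hinj : Function.Injective (fun l : Λ => l ^ (1 + p)) := (hP.powEquiv hcop).injective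
  have hmain := ORS_orb (fun l : Λ => l ^ (1 + p)) hinj (p ^ (h + 1)) f hf _
    (Set.toFinite {l : Λ | l ^ p ^ (h + 1) ≠ 1}).toFinset rfl (by
      intro l hl
      rw [Set.Finite.mem_toFinset] at hl ⊢
      intro h1
      apply hl
      apply hinj
      show (l ^ p ^ (h + 1)) ^ (1 + p) = 1 ^ (1 + p)
      rw [one_pow, ← pow_mul, mul_comm, pow_mul]
      exact h1) (by
      intro l hl n hn
      rw [Set.Finite.mem_toFinset] at hl
      rw [pow_iterate] at hn
      have hn' : l ^ (1 + p) ^ n = l := hn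
      have hpos : 1 ≤ (1 + p) ^ n := Nat.one_le_pow _ _ (by omega)
      have h1 : l ^ ((1 + p) ^ n - 1) = 1 := by
        have h2 : l ^ ((1 + p) ^ n - 1) * l = 1 * l := by
          rw [← pow_succ, Nat.sub_add_cancel hpos, one_mul]
          exact hn'
        exact mul_right_cancel h2
      have h3 := orderOf_dvd_of_pow_eq_one h1
      obtain ⟨a, ha⟩ := (IsPGroup.iff_orderOf.mp hP) l
      have h4 : h + 2 ≤ a := by
        by_contra hlt
        apply hl
        rw [← orderOf_dvd_iff_pow_eq_one, ha]
        exact pow_dvd_pow p (by omega)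
      rw [ha] at h3
      exact ORS_lte hp hp2 ((pow_dvd_pow p h4).trans h3))
  rw [Nat.cast_pow] at hmain
  exact hmain

end Pool.Agent.BR
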